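import Pool.Agent.H13.RB.Size

/-! The density version: all but a proportion `2 ^ (-m)` of the nonzero residues can be
coloured with `m * (4 k) ^ k` colours. -/

set_option autoImplicit false

namespace Pool.Agent.H13.RB

open Finset

theorem card_small_units {p : ℕ} [Fact p.Prime] (S : ZMod p) (hS : S ≠ 0) (m : ℕ)
    (E : Finset (ZMod p)ˣ) (hE : ∀ x ∈ E, 2 ^ (m + 1) * sz (S * (x : ZMod p)) < p) :
    2 ^ m * E.card ≤ p := by
  classical
  have hp : 0 < p := (Fact.out : p.Prime).pos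
  set B : ℕ := (p - 1) / 2 ^ (m + 1) with hB
  have hmem : ∀ x ∈ E, (S * (x : ZMod p)).valMinAbs ∈
      (Finset.Icc (-(B : ℤ)) B).erase 0 := by
    intro x hx
    have h1 := hE x hx
    have h2 : sz (S * (x : ZMod p)) ≤ B := by
      rw [hB, Nat.le_div_iff_mul_le (by positivity)]
      rw [mul_comm]
      omega
    have h3 : 0 < sz (S * (x : ZMod p)) := sz_pos_of_ne_zero (mul_ne_zero hS x.ne_zero)
    unfold sz at h2 h3
    rw [Finset.mem_erase, Finset.mem_Icc]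
    omega
  have hinj : Set.InjOn (fun x : (ZMod p)ˣ => (S * (x : ZMod p)).valMinAbs) E := by
    intro x _ y _ hxy
    have h1 := ZMod.injective_valMinAbs hxy
    have h2 := mul_left_cancel₀ hS h1
    exact Units.ext h2
  have hcard : E.card ≤ ((Finset.Icc (-(B : ℤ)) B).erase 0).card :=
    Finset.card_le_card_of_injOn _ hmem hinj
  have h0 : ((Finset.Icc (-(B : ℤ)) B).erase 0).card = 2 * B := by
    rw [Finset.card_erase_of_mem (Finset.mem_Icc.mpr ⟨by simp, by simp⟩), Int.card_Icc]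
    omega
  rw [h0] at hcard
  have h5 : 2 ^ (m + 1) * B ≤ p - 1 := Nat.mul_div_le _ _
  calc 2 ^ m * E.card ≤ 2 ^ m * (2 * B) := Nat.mul_le_mul_left _ hcard
    _ = 2 ^ (m + 1) * B := by ring
    _ ≤ p - 1 := h5
    _ ≤ p := by omega

theorem density {k : ℕ} (hk : 1 ≤ k) {p : ℕ} [Fact p.Prime] (a : Fin k → ℤ)
    (hs : (∑ i, ((a i : ℤ) : ZMod p)) ≠ 0) (m : ℕ) (hm : 1 ≤ m) :
    ∃ (E : Finset (ZMod p)ˣ) (c : (ZMod p)ˣ → Fin (m * (4 * k) ^ k)),
      2 ^ m * E.card ≤ p ∧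
      ∀ x : Fin k → (ZMod p)ˣ, (∀ i, x i ∉ E) →
        (∑ i, ((a i : ℤ) : ZMod p) * ((x i : (ZMod p)ˣ) : ZMod p)) = 0 →
        ∃ i j : Fin k, c (x i) ≠ c (x j) := by
  classical
  set S : ZMod p := ∑ i, ((a i : ℤ) : ZMod p) with hSdef
  let E : Finset (ZMod p)ˣ :=
    Finset.univ.filter (fun x => ∀ i < m, 4 * sz (2 ^ i * (S * (x : ZMod p))) < p)
  have hEx : ∀ x : (ZMod p)ˣ, x ∉ E → ∃ i : Fin m, p ≤ 4 * sz (2 ^ (i : ℕ) * (S * (x : ZMod p))) := by
    intro x hx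
    have h1 : ¬ ∀ i < m, 4 * sz (2 ^ i * (S * (x : ZMod p))) < p := by
      intro h
      exact hx (Finset.mem_filter.mpr ⟨Finset.mem_univ _, h⟩)
    push Not at h1
    obtain ⟨i, hi, h2⟩ := h1
    exact ⟨⟨i, hi⟩, h2⟩
  have : Nonempty (Fin m) := ⟨⟨0, by omega⟩⟩
  choose! ix hix using hEx
  let c0 : (ZMod p)ˣ → Fin m × (Fin k → Fin (4 * k)) := fun x =>
    if x ∈ E then (⟨0, by omega⟩, fun _ => ⟨0, by omega⟩)
    else (ix x, fun j => ⟨cell (4 * k) (2 ^ (ix x : ℕ) * ((a j : ℤ) : ZMod p) * (x : ZMod p)),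
      cell_lt _ (by omega) _⟩)
  have hcard : Fintype.card (Fin m × (Fin k → Fin (4 * k))) = m * (4 * k) ^ k := by
    simp
  let e : Fin m × (Fin k → Fin (4 * k)) ≃ Fin (m * (4 * k) ^ k) := Fintype.equivFinOfCardEq hcard
  refine ⟨E, fun x => e (c0 x), ?_, ?_⟩
  · apply card_small_units S hs m E
    intro x hx
    have h1 := (Finset.mem_filter.mp hx).2
    obtain ⟨n, rfl⟩ : ∃ n, m = n + 1 := ⟨m - 1, by omega⟩
    have h2 := sz_two_pow_mul (S * (x : ZMod p)) n (fun i hi => h1 i (by omega))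
    have h3 := h1 n (by omega)
    rw [h2] at h3
    calc 2 ^ (n + 1 + 1) * sz (S * (x : ZMod p)) = 4 * (2 ^ n * sz (S * (x : ZMod p))) := by ring
      _ < p := h3
  · intro x hxE hsol
    by_contra hcon
    push Not at hcon
    let j₀ : Fin k := ⟨0, by omega⟩
    have hc : ∀ j, c0 (x j) = c0 (x j₀) := fun j => e.injective (hcon j j₀)
    have hc0 : ∀ j, c0 (x j) = (ix (x j),
        fun l => ⟨cell (4 * k) (2 ^ (ix (x j) : ℕ) * ((a l : ℤ) : ZMod p) * (x j : ZMod p)),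
          cell_lt _ (by omega) _⟩) := by
      intro j
      exact if_neg (hxE j)
    have hi : ∀ j, ix (x j) = ix (x j₀) := by
      intro j
      have := hc j
      rw [hc0 j, hc0 j₀] at this
      exact (Prod.mk.inj this).1
    have hcell : ∀ j, cell (4 * k) (2 ^ (ix (x j₀) : ℕ) * ((a j : ℤ) : ZMod p) * (x j : ZMod p)) =
        cell (4 * k) (2 ^ (ix (x j₀) : ℕ) * ((a j : ℤ) : ZMod p) * (x j₀ : ZMod p)) := by
      intro j
      have := hc j
      rw [hc0 j, hc0 j₀] at this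
      have h2 := congrFun (Prod.mk.inj this).2 j
      have h3 := congrArg Fin.val h2
      simp only at h3
      rw [hi j] at h3
      exact h3
    have h1 := core (fun j => ((a j : ℤ) : ZMod p)) (fun j => ((x j : (ZMod p)ˣ) : ZMod p))
      (2 ^ (ix (x j₀) : ℕ)) j₀ hsol hcell
    have h2 := hix (x j₀) (hxE j₀)
    exact absurd h1 (not_lt.mpr h2)

end Pool.Agent.H13.RB
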