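import Mathlib

/-! Exponential lower bound: for every prime `p` with `2 ^ (k-1) < p ≤ 2 ^ k` there is a
zero-sum-free `k`-tuple all of whose good colourings are injective. -/

set_option autoImplicit false

namespace Pool.Agent.H13.RB

open Finset

/-- Complete sequences: `k` positive integers with sum `N` whose subset sums are `0, …, N`. -/
theorem complete (n : ℕ) : ∀ N : ℕ, 2 ^ n ≤ N → N < 2 ^ (n + 1) →
    ∃ a : Fin (n + 1) → ℕ, (∀ i, 1 ≤ a i) ∧ ∑ i, a i = N ∧
      ∀ s ≤ N, ∃ I : Finset (Fin (n + 1)), ∑ i ∈ I, a i = s := by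
  induction n with
  | zero =>
    intro N h1 h2
    have hN : N = 1 := by
      rw [pow_zero] at h1
      rw [zero_add, pow_one] at h2
      omega
    subst hN
    refine ⟨fun _ => 1, fun _ => le_rfl, by simp, ?_⟩
    intro s hs
    rcases Nat.lt_or_ge s 1 with h | h
    · exact ⟨∅, by rw [Finset.sum_empty]; omega⟩
    · exact ⟨Finset.univ, by simp; omega⟩
  | succ n ih =>
    intro N h1 h2
    have e1 : 2 ^ (n + 1) = 2 * 2 ^ n := by ring
    have e2 : 2 ^ (n + 1 + 1) = 4 * 2 ^ n := by ring
    rw [e1] at h1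
    rw [e2] at h2
    obtain ⟨a, ha, hsum, hsub⟩ := ih (N / 2) (by omega) (by rw [e1]; omega)
    have hpos : 1 ≤ 2 ^ n := Nat.one_le_two_pow
    refine ⟨Fin.cons (N - N / 2) a, ?_, ?_, ?_⟩
    · intro i
      refine Fin.cases ?_ (fun j => ?_) i
      · rw [Fin.cons_zero]; omega
      · rw [Fin.cons_succ]; exact ha j
    · rw [Fin.sum_univ_succ, Fin.cons_zero]
      simp only [Fin.cons_succ]
      rw [hsum]
      omega
    · intro s hs
      have hmap : ∀ I : Finset (Fin (n + 1)),
          ∑ i ∈ I.map (Fin.succEmb (n + 1)), (Fin.cons (N - N / 2) a : Fin (n + 2) → ℕ) i =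
          ∑ i ∈ I, a i := by
        intro I
        rw [Finset.sum_map]
        refine Finset.sum_congr rfl (fun j _ => ?_)
        rw [Fin.coe_succEmb, Fin.cons_succ]
      rcases Nat.lt_or_ge (N / 2) s with h | h
      · obtain ⟨I, hI⟩ := hsub (s - (N - N / 2)) (by omega)
        refine ⟨insert 0 (I.map (Fin.succEmb (n + 1))), ?_⟩
        rw [Finset.sum_insert, hmap, hI, Fin.cons_zero]
        · omega
        · intro hmem
          obtain ⟨j, _, hj⟩ := Finset.mem_map.mp hmem
          rw [Fin.coe_succEmb] at hj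
          exact Fin.succ_ne_zero j hj
      · obtain ⟨I, hI⟩ := hsub s h
        exact ⟨I.map (Fin.succEmb (n + 1)), by rw [hmap, hI]⟩

theorem expo {k : ℕ} (hk : 1 ≤ k) {p : ℕ} [Fact p.Prime] (h1 : 2 ^ (k - 1) < p) (h2 : p ≤ 2 ^ k) :
    ∃ a : Fin k → ℤ,
      (∀ I : Finset (Fin k), I.Nonempty → (∑ i ∈ I, ((a i : ℤ) : ZMod p)) ≠ 0) ∧
      ∀ (r : ℕ) (c : (ZMod p)ˣ → Fin r),
        (∀ x : Fin k → (ZMod p)ˣ,
          (∑ i, ((a i : ℤ) : ZMod p) * ((x i : (ZMod p)ˣ) : ZMod p)) = 0 →
          ∃ i j : Fin k, c (x i) ≠ c (x j)) →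
        Function.Injective c ∧ p - 1 ≤ r := by
  classical
  obtain ⟨n, rfl⟩ : ∃ n, k = n + 1 := ⟨k - 1, by omega⟩
  rw [Nat.add_sub_cancel] at h1
  have hp : p.Prime := Fact.out
  have hp2 := hp.two_le
  obtain ⟨a, ha, hsum, hsub⟩ := complete n (p - 1) (by omega) (by omega)
  refine ⟨fun i => (a i : ℤ), ?_, ?_⟩
  · intro I hI h0
    have e1 : ((∑ i ∈ I, a i : ℕ) : ZMod p) = 0 := by
      rw [← h0]
      push_cast
      rfl
    have hle : ∑ i ∈ I, a i ≤ p - 1 := by
      rw [← hsum]
      exact Finset.sum_le_sum_of_subset (Finset.subset_univ _)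
    have hpos : 0 < ∑ i ∈ I, a i := by
      obtain ⟨i, hi⟩ := hI
      exact Finset.sum_pos (fun j _ => ha j) ⟨i, hi⟩
    rw [ZMod.natCast_eq_zero_iff] at e1
    have := Nat.le_of_dvd hpos e1
    omega
  · intro r c hc
    have hinj : Function.Injective c := by
      intro x y hxy
      by_contra hne
      have hxy0 : (x : ZMod p) - (y : ZMod p) ≠ 0 := by
        intro h
        exact hne (Units.ext (sub_eq_zero.mp h))
      set w : ZMod p := (y : ZMod p) / ((x : ZMod p) - (y : ZMod p)) with hw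
      have hwv : w.val ≤ p - 1 := by
        have := ZMod.val_lt w
        omega
      obtain ⟨I, hI⟩ := hsub w.val hwv
      have hIc : ((∑ i ∈ I, a i : ℕ) : ZMod p) = w := by
        rw [hI, ZMod.natCast_zmod_val]
      have htot : ((∑ i, a i : ℕ) : ZMod p) = -1 := by
        rw [hsum, Nat.cast_sub hp.one_le, ZMod.natCast_self]
        simp
      have hsplit : ((∑ i, a i : ℕ) : ZMod p) = ((∑ i ∈ I, a i : ℕ) : ZMod p) +
          ((∑ i ∈ Iᶜ, a i : ℕ) : ZMod p) := by
        rw [← Nat.cast_add, Finset.sum_add_sum_compl]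
      have hcompl : ((∑ i ∈ Iᶜ, a i : ℕ) : ZMod p) = -1 - w := by
        rw [htot, hIc] at hsplit
        linear_combination -hsplit
      obtain ⟨i, j, hij⟩ := hc (fun i => if i ∈ I then x else y) (by
        have e1 : ∀ i, (((a i : ℕ) : ℤ) : ZMod p) *
            (((if i ∈ I then x else y : (ZMod p)ˣ)) : ZMod p) =
            (if i ∈ I then ((a i : ℕ) : ZMod p) * (x : ZMod p) else 0) +
            (if i ∈ Iᶜ then ((a i : ℕ) : ZMod p) * (y : ZMod p) else 0) := by
          intro i
          by_cases hi : i ∈ I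
          · rw [if_pos hi, if_pos hi, if_neg (by simpa using hi)]
            push_cast
            ring
          · rw [if_neg hi, if_neg hi, if_pos (by simpa using hi)]
            push_cast
            ring
        rw [Finset.sum_congr rfl (fun i _ => e1 i), Finset.sum_add_distrib,
          Finset.sum_ite_mem, Finset.sum_ite_mem, Finset.univ_inter, Finset.univ_inter,
          ← Finset.sum_mul, ← Finset.sum_mul, ← Nat.cast_sum, ← Nat.cast_sum, hIc, hcompl]
        have e2 : w * ((x : ZMod p) - (y : ZMod p)) = (y : ZMod p) := div_mul_cancel₀ _ hxy0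
        linear_combination e2)
      apply hij
      split_ifs
      · rfl
      · exact hxy
      · exact hxy.symm
      · rfl
    refine ⟨hinj, ?_⟩
    have h3 := Fintype.card_le_of_injective c hinj
    rw [ZMod.card_units, Fintype.card_fin] at h3
    exact h3

end Pool.Agent.H13.RB
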