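import Mathlib

/-! Lower bound from Cauchy-Davenport: at least `k` colours are needed once `p > (k-1)^2 + 1`. -/

set_option autoImplicit false

namespace Pool.Agent.H13.RB

open Finset
open scoped Pointwise

theorem sumset_card {k : ℕ} {p : ℕ} [Fact p.Prime] (a : Fin k → ZMod p) (ha : ∀ i, a i ≠ 0)
    (A : Finset (ZMod p)ˣ) (hA : A.Nonempty) (s : Finset (Fin k)) :
    ∃ T : Finset (ZMod p), T.Nonempty ∧
      (∀ z ∈ T, ∃ x : Fin k → (ZMod p)ˣ, (∀ j, x j ∈ A) ∧ ∑ j ∈ s, a j * (x j : ZMod p) = z) ∧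
      min p (s.card * A.card - s.card + 1) ≤ T.card := by
  classical
  induction s using Finset.induction_on with
  | empty =>
    obtain ⟨u, hu⟩ := hA
    refine ⟨{0}, ⟨0, Finset.mem_singleton_self _⟩, ?_, by simp⟩
    intro z hz
    rw [Finset.mem_singleton] at hz
    exact ⟨fun _ => u, fun _ => hu, by simp [hz]⟩
  | insert j s hj ih =>
    obtain ⟨T, hTne, hT, hcard⟩ := ih
    let B : Finset (ZMod p) := A.image (fun u : (ZMod p)ˣ => a j * (u : ZMod p))
    have hBcard : B.card = A.card := by
      apply Finset.card_image_of_injective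
      intro u v huv
      exact Units.ext (mul_left_cancel₀ (ha j) huv)
    have hBne : B.Nonempty := hA.image _
    refine ⟨T + B, hTne.add hBne, ?_, ?_⟩
    · intro z hz
      obtain ⟨t, ht, w, hw, rfl⟩ := Finset.mem_add.mp hz
      obtain ⟨u, hu, rfl⟩ := Finset.mem_image.mp hw
      obtain ⟨x, hx, hxt⟩ := hT t ht
      refine ⟨Function.update x j u, ?_, ?_⟩
      · intro i
        by_cases hi : i = j
        · subst hi; simpa using hu
        · rw [Function.update_of_ne hi]; exact hx i
      · rw [Finset.sum_insert hj, Function.update_self, ← hxt, add_comm]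
        congr 1
        refine Finset.sum_congr rfl (fun i hi => ?_)
        have : i ≠ j := fun h => hj (h ▸ hi)
        rw [Function.update_of_ne this]
    · have hcd := ZMod.cauchy_davenport (Fact.out : p.Prime) hTne hBne
      rw [hBcard] at hcd
      rw [Finset.card_insert_of_notMem hj]
      have hA1 : 1 ≤ A.card := hA.card_pos
      have hprod : (s.card + 1) * A.card = s.card * A.card + A.card := by ring
      have hge : s.card ≤ s.card * A.card := Nat.le_mul_of_pos_right _ hA1
      rw [hprod]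
      have hp : 0 < p := (Fact.out : p.Prime).pos
      omega

theorem lower {k : ℕ} (hk : 1 ≤ k) {p : ℕ} [Fact p.Prime] (hp : (k - 1) ^ 2 + 1 < p)
    (a : Fin k → ℤ) (ha : ∀ i, ((a i : ℤ) : ZMod p) ≠ 0) (r : ℕ) (c : (ZMod p)ˣ → Fin r)
    (hc : ∀ x : Fin k → (ZMod p)ˣ,
      (∑ i, ((a i : ℤ) : ZMod p) * ((x i : (ZMod p)ˣ) : ZMod p)) = 0 →
      ∃ i j : Fin k, c (x i) ≠ c (x j)) : k ≤ r := by
  classical
  by_contra hr
  push Not at hr
  have hcardU : Fintype.card (ZMod p)ˣ = p - 1 := ZMod.card_units p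
  -- a large colour class
  have hr0 : 0 < r := (Nat.zero_le _).trans_lt (c 1).isLt
  obtain ⟨γ, hγ⟩ : ∃ γ : Fin r, p - 1 ≤ (k - 1) * (Finset.univ.filter (fun u => c u = γ)).card := by
    by_contra hcon
    push Not at hcon
    have h1 : (Finset.univ : Finset (ZMod p)ˣ).card =
        ∑ γ : Fin r, (Finset.univ.filter (fun u => c u = γ)).card :=
      Finset.card_eq_sum_card_fiberwise (fun u _ => Finset.mem_univ _)
    rw [Finset.card_univ, hcardU] at h1
    have h2 : (k - 1) * (p - 1) < r * (p - 1) := by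
      calc (k - 1) * (p - 1) = ∑ γ : Fin r, (k - 1) * (Finset.univ.filter (fun u => c u = γ)).card := by
            rw [h1, Finset.mul_sum]
        _ < ∑ _γ : Fin r, (p - 1) :=
            Finset.sum_lt_sum_of_nonempty ⟨⟨0, hr0⟩, Finset.mem_univ _⟩ (fun γ _ => hcon γ)
        _ = r * (p - 1) := by simp
    have h3 : k - 1 < r := lt_of_mul_lt_mul_right h2 (Nat.zero_le _)
    omega
  set A : Finset (ZMod p)ˣ := Finset.univ.filter (fun u => c u = γ) with hA
  have hAk : k ≤ A.card := by
    by_contra hlt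
    push Not at hlt
    have h1 : A.card ≤ k - 1 := by omega
    have h2 : (k - 1) * A.card ≤ (k - 1) ^ 2 := by
      rw [pow_two]
      exact Nat.mul_le_mul_left _ h1
    omega
  have hAne : A.Nonempty := Finset.card_pos.mp (by omega)
  obtain ⟨T, _, hT, hcard⟩ := sumset_card (fun i => ((a i : ℤ) : ZMod p)) ha A hAne Finset.univ
  rw [Finset.card_univ, Fintype.card_fin] at hcard
  have hmul : k * A.card = (k - 1) * A.card + A.card := by
    obtain ⟨n, rfl⟩ : ∃ n, k = n + 1 := ⟨k - 1, by omega⟩
    rw [Nat.add_sub_cancel]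
    ring
  have hTp : p ≤ T.card := by
    have h1 : p ≤ k * A.card - k + 1 := by omega
    rwa [min_eq_left h1] at hcard
  have hTuniv : T = Finset.univ := by
    apply Finset.eq_univ_of_card
    rw [ZMod.card]
    exact le_antisymm (by have := Finset.card_le_univ T; rwa [ZMod.card] at this) hTp
  obtain ⟨x, hx, hxs⟩ := hT 0 (by rw [hTuniv]; exact Finset.mem_univ _)
  obtain ⟨i, j, hij⟩ := hc x hxs
  apply hij
  have e1 := (Finset.mem_filter.mp (hx i)).2
  have e2 := (Finset.mem_filter.mp (hx j)).2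
  rw [e1, e2]

end Pool.Agent.H13.RB
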