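import Mathlib

/-! A positive integer at most 2 ^ L has a prime non-divisor at most C0 * (L + 1)
(Chebyshev lower bound for theta). -/

set_option autoImplicit false

namespace Pool.Agent.H13.RB

theorem theta_lin : ∃ n₀ : ℕ, ∀ n : ℕ, n₀ ≤ n → (n : ℝ) / 4 ≤ Chebyshev.theta n := by
  have h1 : (fun x : ℝ => Real.log x) =o[Filter.atTop] (fun x : ℝ => x ^ ((1:ℝ)/4)) :=
    isLittleO_log_rpow_atTop (by norm_num)
  have h2 := h1.bound (show (0:ℝ) < 1/32 by norm_num)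
  rw [Filter.eventually_atTop] at h2
  obtain ⟨A, hA⟩ := h2
  obtain ⟨n₀, hn₀⟩ := exists_nat_ge (max A 4)
  refine ⟨n₀, fun n hn => ?_⟩
  have hn1 : (n₀ : ℝ) ≤ n := by exact_mod_cast hn
  have hnA : A ≤ (n : ℝ) := (le_max_left _ _).trans (hn₀.trans hn1)
  have hbig : (4:ℝ) ≤ n := (le_max_right _ _).trans (hn₀.trans hn1)
  have hn2 : (1:ℝ) ≤ n := by linarith
  have hn0 : (0:ℝ) < n := by linarith
  have hb := hA n hnA
  rw [Real.norm_of_nonneg (Real.log_nonneg hn2),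
    Real.norm_of_nonneg (Real.rpow_nonneg hn0.le _)] at hb
  have hlog : Real.log n ≤ 1/32 * (n:ℝ) ^ ((1:ℝ)/4) := hb
  have hs : Real.sqrt n = (n:ℝ) ^ ((1:ℝ)/2) := Real.sqrt_eq_rpow _
  have h3 : 2 * Real.sqrt n * Real.log n ≤ (n:ℝ) / 16 := by
    have e1 : (n:ℝ) ^ ((1:ℝ)/2) * (n:ℝ) ^ ((1:ℝ)/4) ≤ n := by
      rw [← Real.rpow_add hn0]
      calc (n:ℝ) ^ ((1:ℝ)/2 + 1/4) ≤ (n:ℝ) ^ (1:ℝ) :=
            Real.rpow_le_rpow_of_exponent_le hn2 (by norm_num)
        _ = n := Real.rpow_one _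
    have e2 : 0 ≤ (n:ℝ) ^ ((1:ℝ)/2) := Real.rpow_nonneg hn0.le _
    rw [hs]
    nlinarith
  have h4 : Real.log (n + 1) ≤ Real.log n + Real.log 2 := by
    rw [← Real.log_mul (by positivity) (by norm_num)]
    exact Real.log_le_log (by positivity) (by linarith)
  have h5 : Real.log n ≤ (n:ℝ) / 32 := by
    have : (n:ℝ) ^ ((1:ℝ)/4) ≤ n := by
      calc (n:ℝ) ^ ((1:ℝ)/4) ≤ (n:ℝ) ^ (1:ℝ) :=
            Real.rpow_le_rpow_of_exponent_le hn2 (by norm_num)
        _ = n := Real.rpow_one _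
    linarith
  have h6 := Chebyshev.theta_ge n
  have h7 : (0.6931471803 : ℝ) < Real.log 2 := Real.log_two_gt_d9
  have h8 : Real.log 2 < (0.6931471808 : ℝ) := Real.log_two_lt_d9
  nlinarith

/-- Every positive integer at most `2 ^ L` has a prime non-divisor that is at most `C0 * (L + 1)`. -/
theorem exists_prime_not_dvd : ∃ C0 : ℕ, ∀ L N : ℕ, 0 < N → N ≤ 2 ^ L →
    ∃ q : ℕ, q.Prime ∧ q ≤ C0 * (L + 1) ∧ ¬ q ∣ N := by
  obtain ⟨n₀, hn₀⟩ := theta_lin
  refine ⟨n₀ + 4, fun L N hN hNL => ?_⟩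
  by_contra hcon
  push Not at hcon
  set n : ℕ := (n₀ + 4) * (L + 1) with hn
  have hn0 : n₀ ≤ n := by nlinarith [Nat.zero_le (n₀ * L), Nat.zero_le L]
  have hn4 : 4 * (L + 1) ≤ n := by nlinarith [Nat.zero_le (n₀ * L), Nat.zero_le L]
  have hdvd : primorial n ∣ N := by
    unfold primorial
    apply Finset.prod_primes_dvd
    · intro q hq
      exact (Finset.mem_filter.mp hq).2.prime
    · intro q hq
      have h := Finset.mem_filter.mp hq
      exact hcon q h.2 (by have := Finset.mem_range.mp h.1; omega)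
  have hle : primorial n ≤ 2 ^ L := (Nat.le_of_dvd hN hdvd).trans hNL
  have hpos : 0 < primorial n := primorial_pos n
  have h1 : Chebyshev.theta n = Real.log (primorial n) := by
    rw [Chebyshev.theta_eq_log_primorial, Nat.floor_natCast]
  have h2 : Real.log (primorial n) ≤ L * Real.log 2 := by
    rw [← Real.log_pow]
    apply Real.log_le_log (by exact_mod_cast hpos)
    exact_mod_cast hle
  have h3 := hn₀ n hn0
  have h8 : Real.log 2 < (0.6931471808 : ℝ) := Real.log_two_lt_d9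
  have h5 : (4:ℝ) * (L + 1) ≤ n := by exact_mod_cast hn4
  have h6 : (0:ℝ) ≤ L := Nat.cast_nonneg _
  rw [h1] at h3
  nlinarith

end Pool.Agent.H13.RB
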