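import Pool.Agent.H13.RB.Size
import Pool.Agent.H13.RB.Prim

/-! Tuples that are simultaneous eigenvalues mod `p` of integer matrices of bounded height. -/

set_option autoImplicit false

namespace Pool.Agent.H13.RB

open Finset

/-- Splitting off the exact power of a prime from a nonzero vector. -/
theorem decVec {n : ℕ} (q : ℕ) (hq : q.Prime) : ∀ (N : ℕ) (r : Fin n → ℤ),
    ∑ t, (r t).natAbs = N → r ≠ 0 →
    ∃ (v : ℕ) (u : Fin n → ℤ), (∀ t, r t = (q : ℤ) ^ v * u t) ∧ ∃ t, ¬ (q : ℤ) ∣ u t := by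
  intro N
  induction N using Nat.strong_induction_on with
  | _ N ih =>
    intro r hN hr
    by_cases h : ∃ t, ¬ (q : ℤ) ∣ r t
    · exact ⟨0, r, by simp, h⟩
    · push Not at h
      choose w hw using h
      have hw0 : w ≠ 0 := by
        rintro rfl
        apply hr
        funext t
        rw [hw t]
        simp
      obtain ⟨t₀, ht₀⟩ : ∃ t, w t ≠ 0 := by
        by_contra hcon
        push Not at hcon
        exact hw0 (funext hcon)
      have hlt : ∑ t, (w t).natAbs < N := by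
        rw [← hN]
        apply Finset.sum_lt_sum
        · intro t _
          rw [hw t, Int.natAbs_mul, Int.natAbs_natCast]
          exact Nat.le_mul_of_pos_left _ hq.pos
        · refine ⟨t₀, Finset.mem_univ _, ?_⟩
          rw [hw t₀, Int.natAbs_mul, Int.natAbs_natCast]
          have h1 := Int.natAbs_pos.mpr ht₀
          have h2 := hq.two_le
          nlinarith
      obtain ⟨v, u, h1, h2⟩ := ih _ hlt w rfl hw0
      refine ⟨v + 1, u, fun t => ?_, h2⟩
      rw [hw t, h1 t]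
      ring

/-- The `q`-adic step for vectors. -/
theorem qadicMat {k n : ℕ} (hk : 1 ≤ k) (q : ℕ) (hq : q.Prime)
    (B : Fin k → Matrix (Fin n) (Fin n) ℤ) (v : Fin k → ℕ) (u : Fin k → Fin n → ℤ)
    (hu : ∀ j, ∃ t, ¬ (q : ℤ) ∣ u j t)
    (huu : ∀ i j t, ((u i t : ℤ) : ZMod q) = ((u j t : ℤ) : ZMod q))
    (hsol : ∀ s, ∑ j, ∑ t, B j s t * ((q : ℤ) ^ v j * u j t) = 0) :
    ∃ I : Finset (Fin k), I.Nonempty ∧ (q : ℤ) ∣ (∑ i ∈ I, B i).det := by
  classical
  have : Fact q.Prime := ⟨hq⟩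
  obtain ⟨j₁, _, hj₁⟩ := Finset.exists_min_image (Finset.univ : Finset (Fin k)) v
    ⟨⟨0, by omega⟩, Finset.mem_univ _⟩
  refine ⟨Finset.univ.filter (fun j => v j = v j₁), ⟨j₁, by simp⟩, ?_⟩
  have hq0 : (q : ℤ) ≠ 0 := by exact_mod_cast hq.ne_zero
  have h1 : ∀ s, ∑ j, ∑ t, B j s t * ((q : ℤ) ^ (v j - v j₁) * u j t) = 0 := by
    intro s
    have h2 : (q : ℤ) ^ (v j₁) * ∑ j, ∑ t, B j s t * ((q : ℤ) ^ (v j - v j₁) * u j t) = 0 := by
      rw [Finset.mul_sum, ← hsol s]
      refine Finset.sum_congr rfl (fun j hj => ?_)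
      rw [Finset.mul_sum]
      refine Finset.sum_congr rfl (fun t _ => ?_)
      have h3 : (q : ℤ) ^ v j = (q : ℤ) ^ (v j₁) * (q : ℤ) ^ (v j - v j₁) := by
        rw [← pow_add]
        congr 1
        have := hj₁ j hj
        omega
      rw [h3]
      ring
    rcases mul_eq_zero.mp h2 with h3 | h3
    · exact absurd h3 (pow_ne_zero _ hq0)
    · exact h3
  set I : Finset (Fin k) := Finset.univ.filter (fun j => v j = v j₁) with hI
  let f : ℤ →+* ZMod q := Int.castRingHom (ZMod q)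
  let ub : Fin n → ZMod q := fun t => ((u j₁ t : ℤ) : ZMod q)
  have hub : ub ≠ 0 := by
    obtain ⟨t, ht⟩ := hu j₁
    intro h
    apply ht
    rw [← ZMod.intCast_zmod_eq_zero_iff_dvd]
    exact congrFun h t
  have hmul : (f.mapMatrix (∑ i ∈ I, B i)).mulVec ub = 0 := by
    funext s
    have h4 : ((∑ j, ∑ t, B j s t * ((q : ℤ) ^ (v j - v j₁) * u j t) : ℤ) : ZMod q) = 0 := by
      rw [h1 s]; simp
    rw [Int.cast_sum] at h4
    have h5 : ∀ j : Fin k, ((∑ t, B j s t * ((q : ℤ) ^ (v j - v j₁) * u j t) : ℤ) : ZMod q) =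
        if v j = v j₁ then ∑ t, ((B j s t : ℤ) : ZMod q) * ub t else 0 := by
      intro j
      by_cases hj : v j = v j₁
      · rw [if_pos hj, hj, Nat.sub_self, Int.cast_sum]
        refine Finset.sum_congr rfl (fun t _ => ?_)
        rw [pow_zero, one_mul, Int.cast_mul, huu j j₁ t]
      · have hne : v j - v j₁ ≠ 0 := by
          have := hj₁ j (Finset.mem_univ _)
          omega
        rw [if_neg hj, Int.cast_sum]
        apply Finset.sum_eq_zero
        intro t _
        rw [Int.cast_mul, Int.cast_mul, Int.cast_pow, Int.cast_natCast, ZMod.natCast_self,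
          zero_pow hne]
        ring
    rw [Finset.sum_congr rfl (fun j _ => h5 j), ← Finset.sum_filter, ← hI] at h4
    have h6 : (f.mapMatrix (∑ i ∈ I, B i)).mulVec ub s = ∑ i ∈ I, ∑ t, ((B i s t : ℤ) : ZMod q) * ub t := by
      unfold Matrix.mulVec dotProduct
      rw [Finset.sum_comm]
      refine Finset.sum_congr rfl (fun t _ => ?_)
      change f ((∑ i ∈ I, B i) s t) * ub t = _
      rw [Matrix.sum_apply, map_sum, Finset.sum_mul]
      rfl
    rw [h6, h4]
    rfl
  have hdet : (f.mapMatrix (∑ i ∈ I, B i)).det = 0 :=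
    Matrix.exists_mulVec_eq_zero_iff.mp ⟨ub, hub, hmul⟩
  rw [← RingHom.map_det] at hdet
  rw [← ZMod.intCast_zmod_eq_zero_iff_dvd]
  exact hdet

/-- Simultaneous eigenvalues of integer matrices of bounded height. -/
theorem matrix_core {k n : ℕ} (hk : 1 ≤ k) (hn : 1 ≤ n) : ∃ C : ℕ,
    ∀ (p : ℕ) [Fact p.Prime] (L : ℕ), 1 ≤ L →
    ∀ B : Fin k → Matrix (Fin n) (Fin n) ℤ, (∀ i s t, |B i s t| ≤ 2 ^ L) →
    (∀ I : Finset (Fin k), I.Nonempty → (∑ i ∈ I, B i).det ≠ 0) →
    ∀ (a : Fin k → ZMod p) (G : Fin n → ZMod p), G ≠ 0 → (∑ i, a i) ≠ 0 →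
    (∀ i s, ∑ t, ((B i s t : ℤ) : ZMod p) * G t = a i * G s) →
    ∃ c : (ZMod p)ˣ → Fin (C * L ^ n),
      ∀ x : Fin k → (ZMod p)ˣ,
        (∑ i, a i * ((x i : (ZMod p)ˣ) : ZMod p)) = 0 →
        ∃ i j : Fin k, c (x i) ≠ c (x j) := by
  classical
  obtain ⟨C0, hC0⟩ := exists_prime_not_dvd
  set K : ℕ := C0 * ((n * n + (k + 1) * n) * 2 ^ k + 1) with hK
  refine ⟨n * (k + n + 2) * (4 * k) ^ k + K ^ n, ?_⟩
  intro p hpf L hL B hB hdet a G hG hS hev
  have hp : 0 < p := (Fact.out : p.Prime).pos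
  set S : ZMod p := ∑ i, a i with hSdef
  let j₀ : Fin k := ⟨0, by omega⟩
  have hk2 : k ≤ 2 ^ k := k.lt_two_pow_self.le
  have hn2 : n ≤ 2 ^ n := n.lt_two_pow_self.le
  -- determinants
  have hdle : ∀ I : Finset (Fin k), (∑ i ∈ I, B i).det.natAbs ≤ 2 ^ (n * n + (L + k) * n) := by
    intro I
    have h1 : |(∑ i ∈ I, B i).det| ≤ (Fintype.card (Fin n)).factorial •
        (I.card • (2:ℤ) ^ L) ^ Fintype.card (Fin n) :=
      Matrix.det_sum_le (abv := AbsoluteValue.abs) I (A := B) (x := (2:ℤ) ^ L) (fun i s t => hB i s t)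
    rw [Fintype.card_fin, nsmul_eq_mul, nsmul_eq_mul] at h1
    have h2 : ((n.factorial : ℕ) : ℤ) * ((I.card : ℤ) * 2 ^ L) ^ n ≤ 2 ^ (n * n + (L + k) * n) := by
      have e1 : n.factorial ≤ 2 ^ (n * n) := by
        calc n.factorial ≤ n ^ n := Nat.factorial_le_pow n
          _ ≤ (2 ^ n) ^ n := Nat.pow_le_pow_left hn2 n
          _ = 2 ^ (n * n) := by rw [← pow_mul]
      have e2 : (I.card * 2 ^ L) ^ n ≤ 2 ^ ((L + k) * n) := by
        have e3 : I.card ≤ 2 ^ k := by
          have := Finset.card_le_univ I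
          rw [Fintype.card_fin] at this
          exact this.trans hk2
        calc (I.card * 2 ^ L) ^ n ≤ (2 ^ k * 2 ^ L) ^ n :=
              Nat.pow_le_pow_left (Nat.mul_le_mul_right _ e3) n
          _ = 2 ^ ((L + k) * n) := by rw [← pow_add, ← pow_mul, add_comm k L]
      have e4 : n.factorial * (I.card * 2 ^ L) ^ n ≤ 2 ^ (n * n + (L + k) * n) := by
        rw [pow_add]
        exact Nat.mul_le_mul e1 e2
      exact_mod_cast e4
    have h3 : (((∑ i ∈ I, B i).det.natAbs : ℕ) : ℤ) ≤ ((2 ^ (n * n + (L + k) * n) : ℕ) : ℤ) := by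
      rw [Int.natCast_natAbs]
      exact_mod_cast h1.trans h2
    exact_mod_cast h3
  set F : Finset (Finset (Fin k)) := Finset.univ.filter (fun I => I.Nonempty) with hF
  set N : ℕ := ∏ I ∈ F, (∑ i ∈ I, B i).det.natAbs with hN
  have hNpos : 0 < N := by
    apply Finset.prod_pos
    intro I hI
    exact Int.natAbs_pos.mpr (hdet I (Finset.mem_filter.mp hI).2)
  have hNle : N ≤ 2 ^ ((n * n + (L + k) * n) * 2 ^ k) := by
    calc N ≤ (2 ^ (n * n + (L + k) * n)) ^ F.card :=
          Finset.prod_le_pow_card _ _ _ (fun I _ => hdle I)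
      _ ≤ (2 ^ (n * n + (L + k) * n)) ^ (2 ^ k) := by
          apply Nat.pow_le_pow_right (by positivity)
          calc F.card ≤ (Finset.univ : Finset (Finset (Fin k))).card := Finset.card_filter_le _ _
            _ = 2 ^ k := by simp
      _ = 2 ^ ((n * n + (L + k) * n) * 2 ^ k) := by rw [← pow_mul]
  obtain ⟨q, hq, hqle, hqN⟩ := hC0 _ N hNpos hNle
  have : Fact q.Prime := ⟨hq⟩
  have hqI : ∀ I : Finset (Fin k), I.Nonempty → ¬ (q : ℤ) ∣ (∑ i ∈ I, B i).det := by
    intro I hI hd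
    apply hqN
    have h1 : q ∣ (∑ i ∈ I, B i).det.natAbs := Int.natCast_dvd.mp hd
    exact h1.trans (Finset.dvd_prod_of_mem _ (Finset.mem_filter.mpr ⟨Finset.mem_univ _, hI⟩))
  -- the colouring
  have hfar : ∀ x : (ZMod p)ˣ, (∃ l : Fin n, p ≤ 4 * 2 ^ (L + k + n) * sz (G l * (S * (x : ZMod p)))) →
      ∃ li : Fin n × Fin (L + k + n + 1),
        p ≤ 4 * sz (2 ^ (li.2 : ℕ) * (G li.1 * (S * (x : ZMod p)))) := by
    rintro x ⟨l, hx⟩
    obtain ⟨i, hi, h⟩ := exists_far _ _ hx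
    exact ⟨(l, ⟨i, by omega⟩), h⟩
  have : Nonempty (Fin n) := ⟨⟨0, by omega⟩⟩
  choose! li hli using hfar
  let r : (ZMod p)ˣ → Fin n → ℤ := fun x t => (G t * (S * (x : ZMod p))).valMinAbs
  have hrne : ∀ x : (ZMod p)ˣ, r x ≠ 0 := by
    intro x h
    apply hG
    funext t
    have h1 : (G t * (S * (x : ZMod p))).valMinAbs = 0 := congrFun h t
    have h2 := (ZMod.valMinAbs_eq_zero _).mp h1
    rcases mul_eq_zero.mp h2 with h3 | h3
    · exact h3
    · exact absurd h3 (mul_ne_zero hS x.ne_zero)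
  have hdec : ∀ x : (ZMod p)ˣ, ∃ (v : ℕ) (u : Fin n → ℤ), (∀ t, r x t = (q : ℤ) ^ v * u t) ∧
      ∃ t, ¬ (q : ℤ) ∣ u t := fun x => decVec q hq _ (r x) rfl (hrne x)
  choose vq uq hvu hnd using hdec
  let c0 : (ZMod p)ˣ → ((Fin n × Fin (L + k + n + 1)) × (Fin k → Fin (4 * k))) ⊕ (Fin n → ZMod q) :=
    fun x =>
    if ∃ l : Fin n, p ≤ 4 * 2 ^ (L + k + n) * sz (G l * (S * (x : ZMod p))) then
      Sum.inl (li x, fun j =>
        ⟨cell (4 * k) (2 ^ ((li x).2 : ℕ) * G (li x).1 * a j * (x : ZMod p)),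
        cell_lt _ (by omega) _⟩)
    else Sum.inr (fun t => ((uq x t : ℤ) : ZMod q))
  have hcard : Fintype.card
      (((Fin n × Fin (L + k + n + 1)) × (Fin k → Fin (4 * k))) ⊕ (Fin n → ZMod q)) ≤
      Fintype.card (Fin ((n * (k + n + 2) * (4 * k) ^ k + K ^ n) * L ^ n)) := by
    rw [Fintype.card_sum, Fintype.card_prod, Fintype.card_prod, Fintype.card_fin, Fintype.card_fin,
      Fintype.card_fun, Fintype.card_fin, Fintype.card_fin, Fintype.card_fun, Fintype.card_fin,
      ZMod.card, Fintype.card_fin]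
    have hLn : L ≤ L ^ n := Nat.le_self_pow (by omega) L
    have e1 : n * (L + k + n + 1) * (4 * k) ^ k ≤ (n * (k + n + 2) * (4 * k) ^ k) * L ^ n := by
      have h1 : L + k + n + 1 ≤ (k + n + 2) * L := by nlinarith
      have h2 : L + k + n + 1 ≤ (k + n + 2) * L ^ n :=
        h1.trans (Nat.mul_le_mul_left _ hLn)
      calc n * (L + k + n + 1) * (4 * k) ^ k ≤ n * ((k + n + 2) * L ^ n) * (4 * k) ^ k :=
            Nat.mul_le_mul_right _ (Nat.mul_le_mul_left _ h2)
        _ = (n * (k + n + 2) * (4 * k) ^ k) * L ^ n := by ring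
    have e2 : q ≤ K * L := by
      have h0 : (n * n + (L + k) * n) ≤ (n * n + (k + 1) * n) * L := by
        have h1 : n * n ≤ n * n * L := Nat.le_mul_of_pos_right _ hL
        have h2 : (L + k) ≤ (k + 1) * L := by nlinarith
        have h3 : (L + k) * n ≤ (k + 1) * L * n := Nat.mul_le_mul_right _ h2
        nlinarith
      have h4 : (n * n + (L + k) * n) * 2 ^ k + 1 ≤ ((n * n + (k + 1) * n) * 2 ^ k + 1) * L := by
        have h5 : (n * n + (L + k) * n) * 2 ^ k ≤ ((n * n + (k + 1) * n) * L) * 2 ^ k :=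
          Nat.mul_le_mul_right _ h0
        nlinarith
      calc q ≤ C0 * ((n * n + (L + k) * n) * 2 ^ k + 1) := hqle
        _ ≤ C0 * (((n * n + (k + 1) * n) * 2 ^ k + 1) * L) := Nat.mul_le_mul_left _ h4
        _ = K * L := by rw [hK]; ring
    have e3 : q ^ n ≤ K ^ n * L ^ n := by
      rw [← mul_pow]
      exact Nat.pow_le_pow_left e2 n
    rw [add_mul]
    exact Nat.add_le_add e1 e3
  obtain ⟨e⟩ := Function.Embedding.nonempty_of_card_le hcard
  refine ⟨fun x => e (c0 x), ?_⟩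
  intro x hsol
  by_contra hcon
  push Not at hcon
  have hc : ∀ j, c0 (x j) = c0 (x j₀) := fun j => e.injective (hcon j j₀)
  by_cases h0 : ∃ l : Fin n, p ≤ 4 * 2 ^ (L + k + n) * sz (G l * (S * (x j₀ : ZMod p)))
  · -- far from zero
    have hx0 : c0 (x j₀) = Sum.inl (li (x j₀), fun l =>
        ⟨cell (4 * k) (2 ^ ((li (x j₀)).2 : ℕ) * G (li (x j₀)).1 * a l * (x j₀ : ZMod p)),
          cell_lt _ (by omega) _⟩) := if_pos h0
    have hfarj : ∀ j, ∃ l : Fin n, p ≤ 4 * 2 ^ (L + k + n) * sz (G l * (S * (x j : ZMod p))) := by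
      intro j
      by_contra hj
      have h1 : c0 (x j) = Sum.inr _ := if_neg hj
      have h2 := hc j
      rw [h1, hx0] at h2
      exact absurd h2 (by simp)
    have hcj : ∀ j, c0 (x j) = Sum.inl (li (x j), fun l =>
        ⟨cell (4 * k) (2 ^ ((li (x j)).2 : ℕ) * G (li (x j)).1 * a l * (x j : ZMod p)),
          cell_lt _ (by omega) _⟩) := fun j => if_pos (hfarj j)
    have hpair : ∀ j, li (x j) = li (x j₀) ∧
        cell (4 * k) (2 ^ ((li (x j)).2 : ℕ) * G (li (x j)).1 * a j * (x j : ZMod p)) =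
        cell (4 * k) (2 ^ ((li (x j₀)).2 : ℕ) * G (li (x j₀)).1 * a j * (x j₀ : ZMod p)) := by
      intro j
      have h2 := hc j
      rw [hcj j, hcj j₀] at h2
      have h3 := Prod.mk.inj (Sum.inl.inj h2)
      exact ⟨h3.1, congrArg Fin.val (congrFun h3.2 j)⟩
    have hcell : ∀ j,
        cell (4 * k) (2 ^ ((li (x j₀)).2 : ℕ) * G (li (x j₀)).1 * a j * (x j : ZMod p)) =
        cell (4 * k) (2 ^ ((li (x j₀)).2 : ℕ) * G (li (x j₀)).1 * a j * (x j₀ : ZMod p)) := by
      intro j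
      have h3 := (hpair j).2
      rw [(hpair j).1] at h3
      exact h3
    have h1 := core a (fun j => ((x j : (ZMod p)ˣ) : ZMod p))
      (2 ^ ((li (x j₀)).2 : ℕ) * G (li (x j₀)).1) j₀ hsol hcell
    have h2 := hli (x j₀) h0
    rw [mul_assoc] at h1
    exact absurd h1 (not_lt.mpr h2)
  · -- near zero
    have hx0 : c0 (x j₀) = Sum.inr (fun t => ((uq (x j₀) t : ℤ) : ZMod q)) := if_neg h0
    have hnear : ∀ j, ¬ ∃ l : Fin n, p ≤ 4 * 2 ^ (L + k + n) * sz (G l * (S * (x j : ZMod p))) := by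
      intro j hj
      have h1 : c0 (x j) = Sum.inl _ := if_pos hj
      have h2 := hc j
      rw [h1, hx0] at h2
      exact absurd h2 (by simp)
    have hcj : ∀ j, c0 (x j) = Sum.inr (fun t => ((uq (x j) t : ℤ) : ZMod q)) :=
      fun j => if_neg (hnear j)
    have huu : ∀ j t, ((uq (x j) t : ℤ) : ZMod q) = ((uq (x j₀) t : ℤ) : ZMod q) := by
      intro j t
      have h2 := hc j
      rw [hcj j, hcj j₀] at h2
      exact congrFun (Sum.inr.inj h2) t
    have hzero : ∀ s, ∑ j, ∑ t, B j s t * r (x j) t = 0 := by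
      intro s
      apply Int.eq_zero_of_abs_lt_dvd (m := (p : ℤ))
      · rw [← ZMod.intCast_zmod_eq_zero_iff_dvd]
        have e1 : ((∑ j, ∑ t, B j s t * r (x j) t : ℤ) : ZMod p) =
            G s * S * ∑ j, a j * (x j : ZMod p) := by
          rw [Int.cast_sum, Finset.mul_sum]
          refine Finset.sum_congr rfl (fun j _ => ?_)
          have e2 : ((∑ t, B j s t * r (x j) t : ℤ) : ZMod p) =
              (∑ t, ((B j s t : ℤ) : ZMod p) * G t) * (S * (x j : ZMod p)) := by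
            rw [Int.cast_sum, Finset.sum_mul]
            refine Finset.sum_congr rfl (fun t _ => ?_)
            rw [Int.cast_mul]
            change ((B j s t : ℤ) : ZMod p) * (((G t * (S * (x j : ZMod p))).valMinAbs : ℤ) : ZMod p) = _
            rw [ZMod.coe_valMinAbs]
            ring
          rw [e2, hev j s]
          ring
        rw [e1, hsol, mul_zero]
      · have h1 : |∑ j, ∑ t, B j s t * r (x j) t| ≤ ∑ j, ∑ t, (2:ℤ) ^ L * |r (x j) t| := by
          refine (Finset.abs_sum_le_sum_abs _ _).trans (Finset.sum_le_sum (fun j _ => ?_))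
          refine (Finset.abs_sum_le_sum_abs _ _).trans (Finset.sum_le_sum (fun t _ => ?_))
          rw [abs_mul]
          exact mul_le_mul_of_nonneg_right (hB j s t) (abs_nonneg _)
        have h2 : ∀ j t, 4 * (2:ℤ) ^ (L + k + n) * |r (x j) t| < p := by
          intro j t
          have h3 : ¬ p ≤ 4 * 2 ^ (L + k + n) * sz (G t * (S * (x j : ZMod p))) :=
            fun h => hnear j ⟨t, h⟩
          have h3' := not_le.mp h3
          have h4 : ((4 * 2 ^ (L + k + n) * (r (x j) t).natAbs : ℕ) : ℤ) < (p : ℤ) := by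
            exact_mod_cast h3'
          rw [← Int.natCast_natAbs]
          push_cast at h4 ⊢
          exact h4
        have h3 : ∑ j : Fin k, ∑ t : Fin n, 4 * (2:ℤ) ^ (L + k + n) * |r (x j) t| <
            ∑ _j : Fin k, ∑ _t : Fin n, (p : ℤ) := by
          apply Finset.sum_lt_sum_of_nonempty ⟨j₀, Finset.mem_univ _⟩
          intro j _
          exact Finset.sum_lt_sum_of_nonempty ⟨⟨0, by omega⟩, Finset.mem_univ _⟩ (fun t _ => h2 j t)
        have h3' : ∑ _j : Fin k, ∑ _t : Fin n, (p : ℤ) = (k : ℤ) * (n * p) := by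
          simp
        rw [h3'] at h3
        have h4 : ∑ j : Fin k, ∑ t : Fin n, 4 * (2:ℤ) ^ (L + k + n) * |r (x j) t| =
            4 * (2 ^ k * 2 ^ n) * ∑ j, ∑ t, (2:ℤ) ^ L * |r (x j) t| := by
          rw [Finset.mul_sum]
          refine Finset.sum_congr rfl (fun j _ => ?_)
          rw [Finset.mul_sum]
          refine Finset.sum_congr rfl (fun t _ => ?_)
          rw [pow_add, pow_add]
          ring
        rw [h4] at h3
        have hk2' : (k : ℤ) ≤ 2 ^ k := by exact_mod_cast hk2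
        have hn2' : (n : ℤ) ≤ 2 ^ n := by exact_mod_cast hn2
        have hp' : (0 : ℤ) < p := by exact_mod_cast hp
        have h5 : (2:ℤ) ^ k * 2 ^ n * (4 * ∑ j, ∑ t, (2:ℤ) ^ L * |r (x j) t|) < 2 ^ k * 2 ^ n * p := by
          calc (2:ℤ) ^ k * 2 ^ n * (4 * ∑ j, ∑ t, (2:ℤ) ^ L * |r (x j) t|)
              = 4 * (2 ^ k * 2 ^ n) * ∑ j, ∑ t, (2:ℤ) ^ L * |r (x j) t| := by ring
            _ < (k : ℤ) * (n * p) := h3
            _ ≤ 2 ^ k * (2 ^ n * p) := by
                apply mul_le_mul hk2' (mul_le_mul_of_nonneg_right hn2' hp'.le) (by positivity)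
                  (by positivity)
            _ = 2 ^ k * 2 ^ n * p := by ring
        have h6 := lt_of_mul_lt_mul_left h5 (by positivity)
        have h7 : (0:ℤ) ≤ ∑ j, ∑ t, (2:ℤ) ^ L * |r (x j) t| :=
          Finset.sum_nonneg (fun j _ => Finset.sum_nonneg (fun t _ => by positivity))
        linarith
    obtain ⟨I, hI, hd⟩ := qadicMat hk q hq B (fun j => vq (x j)) (fun j => uq (x j))
      (fun j => hnd _)
      (fun i j t => (huu i t).trans (huu j t).symm)
      (by
        intro s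
        rw [← hzero s]
        refine Finset.sum_congr rfl (fun j _ => Finset.sum_congr rfl (fun t _ => ?_))
        rw [hvu (x j) t])
    exact hqI I hI hd

end Pool.Agent.H13.RB
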