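import Pool.Agent.H13.RB.Mat

/-! Tuples of bounded height in a fixed number ring. -/

set_option autoImplicit false

namespace Pool.Agent.H13.RB

open Finset

theorem ring_core {k n : ℕ} (hk : 1 ≤ k) (R : Type) [CommRing R] [IsDomain R]
    (b : Module.Basis (Fin n) ℤ R) :
    ∃ C : ℕ, ∀ (p : ℕ) [Fact p.Prime] (φ : R →+* ZMod p) (M : ℕ) (α : Fin k → R),
      (∀ i s, |b.repr (α i) s| ≤ (M : ℤ)) →
      ∀ (a : Fin k → ZMod p) (t : ZMod p), t ≠ 0 → (∀ i, t * a i = φ (α i)) →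
      (∀ I : Finset (Fin k), I.Nonempty → (∑ i ∈ I, a i) ≠ 0) →
      ∃ c : (ZMod p)ˣ → Fin (C * (Nat.log 2 M + 1) ^ n),
        ∀ x : Fin k → (ZMod p)ˣ,
          (∑ i, a i * ((x i : (ZMod p)ˣ) : ZMod p)) = 0 →
          ∃ i j : Fin k, c (x i) ≠ c (x j) := by
  classical
  have hn : 1 ≤ n := by
    have : Nonempty (Fin n) := b.index_nonempty
    exact Fin.pos_iff_nonempty.mpr this
  obtain ⟨C1, hC1⟩ := matrix_core (n := n) hk hn
  set K0 : ℕ := ∑ s, ∑ t, ∑ u, (b.repr (b u * b s) t).natAbs with hK0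
  refine ⟨C1 * (K0 + 1) ^ n, ?_⟩
  intro p hpf φ M α hM a t ht hta hzs
  have hαne : ∀ I : Finset (Fin k), I.Nonempty → φ (∑ i ∈ I, α i) ≠ 0 := by
    intro I hI h0
    apply hzs I hI
    have h1 : t * ∑ i ∈ I, a i = 0 := by
      rw [Finset.mul_sum, ← h0, map_sum]
      exact Finset.sum_congr rfl (fun i _ => hta i)
    rcases mul_eq_zero.mp h1 with h | h
    · exact absurd h ht
    · exact h
  let B : Fin k → Matrix (Fin n) (Fin n) ℤ := fun i => (Algebra.leftMulMatrix b (α i)).transpose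
  have hBapp : ∀ i s t, B i s t = b.repr (α i * b s) t := by
    intro i s t
    exact Algebra.leftMulMatrix_eq_repr_mul b (α i) t s
  have hBle : ∀ i s t, |B i s t| ≤ 2 ^ (Nat.log 2 M + 1 + K0) := by
    intro i s t
    have h1 : b.repr (α i * b s) t = ∑ u, b.repr (α i) u * b.repr (b u * b s) t := by
      conv_lhs => rw [← b.sum_repr (α i)]
      rw [Finset.sum_mul, map_sum, Finsupp.finsetSum_apply]
      refine Finset.sum_congr rfl (fun u _ => ?_)
      rw [smul_mul_assoc, map_smul, Finsupp.smul_apply, smul_eq_mul]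
    rw [hBapp, h1]
    have h2 : ∑ u, (b.repr (b u * b s) t).natAbs ≤ K0 := by
      rw [hK0]
      calc ∑ u, (b.repr (b u * b s) t).natAbs
          ≤ ∑ t, ∑ u, (b.repr (b u * b s) t).natAbs :=
            Finset.single_le_sum (f := fun t => ∑ u, (b.repr (b u * b s) t).natAbs)
              (fun _ _ => Nat.zero_le _) (Finset.mem_univ t)
        _ ≤ _ := Finset.single_le_sum (f := fun s => ∑ t, ∑ u, (b.repr (b u * b s) t).natAbs)
              (fun _ _ => Nat.zero_le _) (Finset.mem_univ s)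
    have h3 : M ≤ 2 ^ (Nat.log 2 M + 1) := (Nat.lt_pow_succ_log_self (by norm_num) M).le
    have h4 : K0 ≤ 2 ^ K0 := K0.lt_two_pow_self.le
    calc |∑ u, b.repr (α i) u * b.repr (b u * b s) t|
        ≤ ∑ u, |b.repr (α i) u * b.repr (b u * b s) t| := Finset.abs_sum_le_sum_abs _ _
      _ ≤ ∑ u, (M : ℤ) * |b.repr (b u * b s) t| := by
          refine Finset.sum_le_sum (fun u _ => ?_)
          rw [abs_mul]
          exact mul_le_mul_of_nonneg_right (hM i u) (abs_nonneg _)
      _ = ((M * ∑ u, (b.repr (b u * b s) t).natAbs : ℕ) : ℤ) := by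
          rw [← Finset.mul_sum]
          push_cast
          rfl
      _ ≤ ((2 ^ (Nat.log 2 M + 1) * 2 ^ K0 : ℕ) : ℤ) := by
          exact_mod_cast Nat.mul_le_mul h3 (h2.trans h4)
      _ = 2 ^ (Nat.log 2 M + 1 + K0) := by
          push_cast
          ring
  have hdet : ∀ I : Finset (Fin k), I.Nonempty → (∑ i ∈ I, B i).det ≠ 0 := by
    intro I hI
    have h1 : ∑ i ∈ I, B i = (Algebra.leftMulMatrix b (∑ i ∈ I, α i)).transpose := by
      rw [map_sum, Matrix.transpose_sum]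
    rw [h1, Matrix.det_transpose, ← Algebra.norm_eq_matrix_det b]
    apply (Algebra.norm_ne_zero_iff_of_basis b).mpr
    intro h0
    apply hαne I hI
    rw [h0, map_zero]
  let G : Fin n → ZMod p := fun s => φ (b s)
  have hφ : ∀ y : R, φ y = ∑ t, ((b.repr y t : ℤ) : ZMod p) * G t := by
    intro y
    conv_lhs => rw [← b.sum_repr y]
    rw [map_sum]
    refine Finset.sum_congr rfl (fun t _ => ?_)
    rw [zsmul_eq_mul, map_mul, map_intCast]
  have hG : G ≠ 0 := by
    intro h0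
    have h1 : φ 1 = 0 := by
      rw [hφ 1, h0]
      simp
    rw [map_one] at h1
    exact one_ne_zero h1
  have hev : ∀ i s, ∑ t, ((B i s t : ℤ) : ZMod p) * G t = φ (α i) * G s := by
    intro i s
    have h1 := hφ (α i * b s)
    rw [map_mul] at h1
    rw [show φ (α i) * G s = φ (α i) * φ (b s) from rfl, h1]
    exact Finset.sum_congr rfl (fun t _ => by rw [hBapp])
  have hS : ∑ i, φ (α i) ≠ 0 := by
    have h1 := hαne Finset.univ ⟨⟨0, by omega⟩, Finset.mem_univ _⟩
    rwa [map_sum] at h1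
  obtain ⟨c, hc⟩ := hC1 p (Nat.log 2 M + 1 + K0) (by omega) B hBle hdet (fun i => φ (α i)) G hG hS hev
  have hle : C1 * (Nat.log 2 M + 1 + K0) ^ n ≤ C1 * (K0 + 1) ^ n * (Nat.log 2 M + 1) ^ n := by
    rw [mul_assoc, ← mul_pow]
    apply Nat.mul_le_mul_left
    apply Nat.pow_le_pow_left
    nlinarith
  refine ⟨fun x => Fin.castLE hle (c x), fun x hx => ?_⟩
  have h1 : ∑ i, φ (α i) * ((x i : (ZMod p)ˣ) : ZMod p) = 0 := by
    have h2 : ∑ i, φ (α i) * ((x i : (ZMod p)ˣ) : ZMod p) =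
        t * ∑ i, a i * ((x i : (ZMod p)ˣ) : ZMod p) := by
      rw [Finset.mul_sum]
      refine Finset.sum_congr rfl (fun i _ => ?_)
      rw [← hta i]
      ring
    rw [h2, hx, mul_zero]
  obtain ⟨i, j, hij⟩ := hc x h1
  exact ⟨i, j, fun h => hij (Fin.castLE_injective hle h)⟩

end Pool.Agent.H13.RB
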