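import Mathlib

/-! Sizes of residues: `sz x` is the least absolute value of a representative of `x`. -/

set_option autoImplicit false

namespace Pool.Agent.H13.RB

open Finset

variable {p : ℕ}

/-- The least absolute value of an integer representing the residue `x`. -/
def sz (x : ZMod p) : ℕ := x.valMinAbs.natAbs

theorem sz_two_mul [NeZero p] (x : ZMod p) (h : 4 * sz x < p) : sz (2 * x) = 2 * sz x := by
  have h1 : (2 * x).valMinAbs = 2 * x.valMinAbs := by
    rw [ZMod.valMinAbs_spec]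
    refine ⟨?_, ?_⟩
    · simp
    · unfold sz at h
      constructor <;> omega
  unfold sz
  rw [h1, Int.natAbs_mul]
  rfl

theorem sz_two_pow_mul [NeZero p] (y : ZMod p) (n : ℕ)
    (h : ∀ i < n, 4 * sz (2 ^ i * y) < p) : sz (2 ^ n * y) = 2 ^ n * sz y := by
  induction n with
  | zero => simp
  | succ n ih =>
    have h1 := ih (fun i hi => h i (by omega))
    have h2 := h n (by omega)
    have h3 : (2:ZMod p) ^ (n + 1) * y = 2 * (2 ^ n * y) := by ring
    rw [h3, sz_two_mul _ h2, h1]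
    ring

theorem exists_far [NeZero p] (y : ZMod p) (n : ℕ) (h : p ≤ 4 * 2 ^ n * sz y) :
    ∃ i ≤ n, p ≤ 4 * sz (2 ^ i * y) := by
  by_contra hcon
  push Not at hcon
  have h1 := sz_two_pow_mul y n (fun i hi => hcon i hi.le)
  have h2 := hcon n le_rfl
  rw [h1] at h2
  nlinarith

theorem sz_le_of_eq [NeZero p] (x : ZMod p) (y : ℤ) (h : x = (y : ZMod p)) : sz x ≤ y.natAbs := by
  apply ZMod.natAbs_min_of_le_div_two p
  · rw [ZMod.coe_valMinAbs, h]
  · exact ZMod.natAbs_valMinAbs_le x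

theorem sz_add_le [NeZero p] (x y : ZMod p) : sz (x + y) ≤ sz x + sz y :=
  (ZMod.natAbs_valMinAbs_add_le x y).trans (Int.natAbs_add_le _ _)

theorem sz_zero : sz (0 : ZMod p) = 0 := by simp [sz]

theorem sz_pos_of_ne_zero {x : ZMod p} (h : x ≠ 0) : 0 < sz x := by
  unfold sz
  rw [Int.natAbs_pos]
  intro h1
  exact h ((ZMod.valMinAbs_eq_zero x).mp h1)

theorem sz_sum_le [NeZero p] {ι : Type*} (s : Finset ι) (f : ι → ZMod p) :
    sz (∑ i ∈ s, f i) ≤ ∑ i ∈ s, sz (f i) := by
  classical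
  induction s using Finset.induction_on with
  | empty => simp [sz_zero]
  | insert a s ha ih =>
    rw [Finset.sum_insert ha, Finset.sum_insert ha]
    exact (sz_add_le _ _).trans (by omega)

/-- The cell of a residue: which of the `Q` consecutive arcs of length `p / Q` contains it. -/
def cell (Q : ℕ) (z : ZMod p) : ℕ := Q * z.val / p

theorem cell_lt [NeZero p] (Q : ℕ) (hQ : 0 < Q) (z : ZMod p) : cell Q z < Q := by
  unfold cell
  rw [Nat.div_lt_iff_lt_mul (Nat.pos_of_ne_zero (NeZero.ne p))]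
  exact Nat.mul_lt_mul_of_pos_left (ZMod.val_lt z) hQ

theorem sz_sub_lt_of_cell_eq [NeZero p] (Q : ℕ) (z w : ZMod p) (h : cell Q z = cell Q w) :
    Q * sz (z - w) < p := by
  have hp : 0 < p := Nat.pos_of_ne_zero (NeZero.ne p)
  unfold cell at h
  have h1 : sz (z - w) ≤ ((z.val : ℤ) - (w.val : ℤ)).natAbs := by
    apply sz_le_of_eq
    push_cast
    rw [ZMod.natCast_zmod_val, ZMod.natCast_zmod_val]
  have e1 := Nat.div_add_mod (Q * z.val) p
  have e2 := Nat.div_add_mod (Q * w.val) p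
  have m1 := Nat.mod_lt (Q * z.val) hp
  have m2 := Nat.mod_lt (Q * w.val) hp
  rw [h] at e1
  have h2 : Q * ((z.val : ℤ) - (w.val : ℤ)).natAbs < p := by
    have : ((Q : ℤ) * ((z.val : ℤ) - (w.val : ℤ))).natAbs < p := by
      have e3 : (Q : ℤ) * ((z.val : ℤ) - (w.val : ℤ)) =
          ((Q * z.val % p : ℕ) : ℤ) - ((Q * w.val % p : ℕ) : ℤ) := by
        have e1' : (p : ℤ) * ((Q * w.val / p : ℕ) : ℤ) + ((Q * z.val % p : ℕ) : ℤ)
          = (Q : ℤ) * (z.val : ℤ) := by exact_mod_cast e1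
        have e2' : (p : ℤ) * ((Q * w.val / p : ℕ) : ℤ) + ((Q * w.val % p : ℕ) : ℤ)
          = (Q : ℤ) * (w.val : ℤ) := by exact_mod_cast e2
        linarith
      rw [e3]
      omega
    rwa [Int.natAbs_mul, Int.natAbs_natCast] at this
  exact (Nat.mul_le_mul_left Q h1).trans_lt h2

/-- The main estimate: if the `x j` lie in the same cells, then a solution of
`∑ b j * x j = 0` forces `D * (∑ b j) * x j₀` to be near `0`. -/
theorem core [NeZero p] {k : ℕ} (b x : Fin k → ZMod p) (D : ZMod p) (j₀ : Fin k)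
    (hsol : ∑ j, b j * x j = 0)
    (hc : ∀ j, cell (4 * k) (D * b j * x j) = cell (4 * k) (D * b j * x j₀)) :
    4 * sz (D * ((∑ j, b j) * x j₀)) < p := by
  have hk : 0 < k := Fin.pos j₀
  have h1 : D * ((∑ j, b j) * x j₀) = ∑ j, (D * b j * x j₀ - D * b j * x j) := by
    rw [Finset.sum_sub_distrib]
    have e1 : ∑ j, D * b j * x j = D * ∑ j, b j * x j := by
      rw [Finset.mul_sum]
      exact Finset.sum_congr rfl (fun j _ => by ring)
    have e2 : ∑ j, D * b j * x j₀ = D * ((∑ j, b j) * x j₀) := by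
      rw [Finset.sum_mul, Finset.mul_sum]
      exact Finset.sum_congr rfl (fun j _ => by ring)
    rw [e1, hsol, e2]
    ring
  have h2 : sz (D * ((∑ j, b j) * x j₀)) ≤ ∑ j, sz (D * b j * x j₀ - D * b j * x j) := by
    rw [h1]
    exact sz_sum_le _ _
  have h3 : ∑ j : Fin k, 4 * k * sz (D * b j * x j₀ - D * b j * x j) < ∑ _j : Fin k, p := by
    apply Finset.sum_lt_sum_of_nonempty ⟨j₀, Finset.mem_univ _⟩
    intro j _
    exact sz_sub_lt_of_cell_eq _ _ _ (hc j).symm
  rw [← Finset.mul_sum, Finset.sum_const, Finset.card_univ, Fintype.card_fin, smul_eq_mul] at h3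
  have h4 : 4 * k * sz (D * ((∑ j, b j) * x j₀)) < k * p :=
    (Nat.mul_le_mul_left (4 * k) h2).trans_lt h3
  have h5 : k * (4 * sz (D * ((∑ j, b j) * x j₀))) < k * p := by
    calc k * (4 * sz (D * ((∑ j, b j) * x j₀))) = 4 * k * sz (D * ((∑ j, b j) * x j₀)) := by ring
      _ < k * p := h4
  exact Nat.lt_of_mul_lt_mul_left h5

end Pool.Agent.H13.RB
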